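import Pool.Agent.Run7.h74.AE.Iface
import Pool.Agent.Q121.UM.LIT

/-!
# Piece LITI of project AE (helper74): Littlewood lemma with a weight, imaginary part

Adapted from `Pool.Agent.Q121.UM.LIT`.
-/

set_option autoImplicit false

namespace Pool.Agent.Run7.h416.AE

open Filter Topology MeasureTheory Complex Set
open Pool.Agent.Q121.UM

/-- the vertical integral, imaginary part -/
theorem vertI {F κ : ℂ → ℂ} {a b c d t σ : ℝ} {Z : Finset ℂ} (hcd : c < d)
    (hF : AnalyticOnNhd ℂ F (Icc a b ×ℂ Icc c d)) (hκ : Differentiable ℂ κ)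
    (hκ0 : ∀ y : ℝ, (κ (y * I)).im = 0)
    (h1 : ∀ x ∈ Icc a b, F ⟨x, c⟩ ≠ 0 ∧ F ⟨x, d⟩ ≠ 0) (h2 : ∀ y ∈ Icc c d, F ⟨b, y⟩ ≠ 0)
    (hZ : ∀ s : ℂ, s ∈ Z ↔ a < s.re ∧ s.re < b ∧ c < s.im ∧ s.im < d ∧ F s = 0)
    (hσa : a < σ) (hσb : σ < b) (hσ : ∀ y ∈ Icc c d, F ⟨σ, y⟩ ≠ 0) :
    (∫ y in c..d, (deriv F ⟨σ, y⟩ / F ⟨σ, y⟩).im * (κ ((y - t : ℝ) * I)).re) =
      (∫ y in c..d, deriv F ⟨b, y⟩ / F ⟨b, y⟩ * κ (((b - σ : ℝ) : ℂ) + (y - t : ℝ) * I)).im -
      ((∫ x in σ..b, deriv F ⟨x, c⟩ / F ⟨x, c⟩ * κ (((x - σ : ℝ) : ℂ) + (c - t : ℝ) * I)) -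
      (∫ x in σ..b, deriv F ⟨x, d⟩ / F ⟨x, d⟩ * κ (((x - σ : ℝ) : ℂ) + (d - t : ℝ) * I))).re -
      2 * Real.pi * ∑ s ∈ Z, (H370.mult F s : ℝ) *
        (if σ < s.re then (κ (s - (σ + t * I))).im else 0) := by
  have hsub : Icc σ b ×ℂ Icc c d ⊆ Icc a b ×ℂ Icc c d := by
    rintro s ⟨hs1, hs2⟩
    exact ⟨⟨hσa.le.trans hs1.1, hs1.2⟩, hs2⟩
  have hh : Differentiable ℂ (fun s => κ (s - (σ + t * I))) := by
    apply hκ.comp
    fun_prop
  obtain ⟨-, hr⟩ := H370.rect_residue F (fun s => κ (s - (σ + t * I))) σ b c d hσb hcd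
    (hF.mono hsub) hh (by
      rintro s ⟨hs1, hs2⟩ h0
      rw [mem_preimage] at hs1 hs2
      refine ⟨⟨lt_of_le_of_ne hs1.1 ?_, lt_of_le_of_ne hs1.2 ?_⟩,
        ⟨lt_of_le_of_ne hs2.1 ?_, lt_of_le_of_ne hs2.2 ?_⟩⟩
      · intro h
        exact hσ s.im hs2 (by rw [h]; exact h0)
      · intro h
        exact h2 s.im hs2 (by rw [← h]; exact h0)
      · intro h
        exact (h1 s.re ⟨hσa.le.trans hs1.1, hs1.2⟩).1 (by rw [h]; exact h0)
      · intro h
        exact (h1 s.re ⟨hσa.le.trans hs1.1, hs1.2⟩).2 (by rw [← h]; exact h0))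
  have hset : {s | s ∈ Ioo σ b ×ℂ Ioo c d ∧ F s = 0} =
      ((Z.filter (fun s => σ < s.re) : Finset ℂ) : Set ℂ) := by
    ext s
    rw [Finset.mem_coe, Finset.mem_filter, hZ]
    constructor
    · rintro ⟨⟨⟨q1, q2⟩, q3, q4⟩, q5⟩
      exact ⟨⟨hσa.trans q1, q2, q3, q4, q5⟩, q1⟩
    · rintro ⟨⟨q1, q2, q3, q4, q5⟩, q6⟩
      exact ⟨⟨⟨q6, q2⟩, q3, q4⟩, q5⟩
  rw [hset, finsum_mem_coe_finset] at hr
  have k1 : ∀ x y : ℝ, κ ((⟨x, y⟩ : ℂ) - (σ + t * I)) = κ (((x - σ : ℝ) : ℂ) + (y - t : ℝ) * I) := by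
    intro x y
    congr 1
    rw [H370.mk_eq]
    push_cast
    ring
  simp only [k1] at hr
  have k2 : ∀ y : ℝ, κ (((σ - σ : ℝ) : ℂ) + (y - t : ℝ) * I) = ((κ ((y - t : ℝ) * I)).re : ℂ) := by
    intro y
    rw [sub_self, ofReal_zero, zero_add]
    apply Complex.ext
    · rw [ofReal_re]
    · rw [ofReal_im]
      exact hκ0 _
  simp only [k2] at hr
  have hci : IntervalIntegrable (fun y : ℝ => deriv F ⟨σ, y⟩ / F ⟨σ, y⟩ *
      ((κ ((y - t : ℝ) * I)).re : ℂ)) volume c d := by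
    apply ContinuousOn.intervalIntegrable
    rw [uIcc_of_le hcd.le]
    have hm : MapsTo (fun y : ℝ => (⟨σ, y⟩ : ℂ)) (Icc c d) (Icc a b ×ℂ Icc c d) :=
      fun y hy => ⟨⟨hσa.le, hσb.le⟩, hy⟩
    apply ContinuousOn.mul
    · apply ContinuousOn.div
      · exact (hF.deriv.continuousOn).comp (cont_mk_right σ).continuousOn hm
      · exact (hF.continuousOn).comp (cont_mk_right σ).continuousOn hm
      · exact hσ
    · apply Continuous.continuousOn
      have := hκ.continuous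
      fun_prop
  have k3 : (∫ y in c..d, (deriv F ⟨σ, y⟩ / F ⟨σ, y⟩).im * (κ ((y - t : ℝ) * I)).re) =
      (∫ y in c..d, deriv F ⟨σ, y⟩ / F ⟨σ, y⟩ * ((κ ((y - t : ℝ) * I)).re : ℂ)).im := by
    have := Complex.imCLM.intervalIntegral_comp_comm hci
    rw [← Complex.imCLM_apply, ← this]
    apply intervalIntegral.integral_congr
    intro y _
    simp only [Complex.imCLM_apply, mul_im, ofReal_re, ofReal_im, mul_zero, zero_add]
  rw [k3]
  have k4 : ∀ V A B S E : ℂ, A - B + I * V - I * S = 2 * Real.pi * I * E →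
      S.im = V.im - (A - B).re - 2 * Real.pi * E.im := by
    intro V A B S E h
    have := congrArg Complex.re h
    simp at this
    simp
    linarith
  rw [k4 _ _ _ _ _ hr]
  congr 2
  rw [Complex.im_sum, Finset.sum_filter]
  apply Finset.sum_congr rfl
  intro s _
  have k5 : κ (((s.re - σ : ℝ) : ℂ) + (s.im - t : ℝ) * I) = κ (s - (σ + t * I)) := by
    rw [← k1 s.re s.im]
  split_ifs with hs
  · rw [k5]
    simp
  · simp

/-- **LITI** -/
theorem t_LITI : Pool.Agent.Run7.h74.AE.S_LITI := by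
  intro F κ a b c d t Z hab hcd hF hκ hκ0 h1 h2 hZ
  set K : Set ℂ := Icc a b ×ℂ Icc c d with hK
  have hKc : IsCompact K := isCompact_Icc.reProdIm isCompact_Icc
  have hKpre : IsPreconnected K := by
    have : Convex ℝ K := by
      have h1 := (convex_Icc a b).linear_preimage Complex.reLm
      have h2 := (convex_Icc c d).linear_preimage Complex.imLm
      exact h1.inter h2
    exact this.isPreconnected
  have hcorner : (⟨a, c⟩ : ℂ) ∈ K := ⟨⟨le_rfl, hab.le⟩, ⟨le_rfl, hcd.le⟩⟩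
  have hcF : F ⟨a, c⟩ ≠ 0 := (h1 a ⟨le_rfl, hab.le⟩).1
  have hnt0 : ∀ s ∈ K, ¬ (∀ᶠ z in 𝓝 s, F z = 0) := fun s hs h1 =>
    hcF (hF.eqOn_zero_of_preconnected_of_eventuallyEq_zero hKpre hs h1 hcorner)
  have hnt : ∀ s ∈ K, ∀ᶠ z in 𝓝[≠] s, F z ≠ 0 := by
    intro s hs
    rcases (hF s hs).eventually_eq_zero_or_eventually_ne_zero with h1 | h1
    · exact absurd h1 (hnt0 s hs)
    · exact h1
  have hfin : Set.Finite {s | s ∈ K ∧ F s = 0} := by
    by_contra hinf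
    obtain ⟨z, hz, hacc⟩ := Set.Infinite.exists_accPt_of_subset_isCompact hinf hKc
      (fun s hs => hs.1)
    rw [accPt_iff_frequently_nhdsNE] at hacc
    have := hacc.and_eventually (hnt z hz)
    obtain ⟨w, hw⟩ := this.exists
    exact hw.2 hw.1.2
  set Z0 : Finset ℂ := hfin.toFinset with hZ0
  have hz : ∀ s ∈ K, F s = 0 ↔ s ∈ Z0 := by
    intro s hs
    rw [hZ0, Set.Finite.mem_toFinset]
    exact ⟨fun h => ⟨hs, h⟩, fun h => h.2⟩
  have hz2 : ∀ s ∈ Z0, s ∈ K ∧ analyticOrderAt F s ≠ ⊤ := by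
    intro s hs
    rw [hZ0, Set.Finite.mem_toFinset] at hs
    refine ⟨hs.1, ?_⟩
    intro h
    exact hnt0 s hs.1 (analyticOrderAt_eq_top.1 h)
  have hbox := box_int hab.le hcd.le F Z0 hF hz hz2
  -- the weight
  set κ0 : ℝ → ℝ := fun y => (κ ((y - t : ℝ) * I)).re with hκ0d
  have hκ0c : Continuous κ0 := by
    have := hκ.continuous
    rw [hκ0d]
    fun_prop
  set f : ℝ → ℝ → ℝ := fun σ y => (deriv F ⟨σ, y⟩ / F ⟨σ, y⟩).im * κ0 y with hf
  have hfI : Integrable (Function.uncurry f) (mu a b c d) := by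
    obtain ⟨C, hC⟩ := isCompact_Icc.exists_bound_of_continuousOn
      (s := Icc c d) hκ0c.continuousOn
    have h3 : Integrable (fun p : ℝ × ℝ => C * ‖deriv F ⟨p.1, p.2⟩ / F ⟨p.1, p.2⟩‖)
        (mu a b c d) := hbox.norm.const_mul C
    refine h3.mono' ?_ ?_
    · apply AEStronglyMeasurable.mul
      · exact Complex.continuous_im.comp_aestronglyMeasurable hbox.aestronglyMeasurable
      · exact (hκ0c.comp continuous_snd).aestronglyMeasurable
    · have e2 : ∀ᵐ p ∂(mu a b c d), p ∈ Ioc a b ×ˢ Ioc c d := by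
        rw [mu_eq]
        exact ae_restrict_mem (measurableSet_Ioc.prod measurableSet_Ioc)
      filter_upwards [e2] with p hp
      show ‖(deriv F ⟨p.1, p.2⟩ / F ⟨p.1, p.2⟩).im * κ0 p.2‖ ≤ _
      rw [norm_mul, mul_comm]
      apply mul_le_mul (hC _ (Ioc_subset_Icc_self hp.2)) _ (norm_nonneg _)
        (le_trans (norm_nonneg _) (hC _ (Ioc_subset_Icc_self hp.2)))
      rw [Real.norm_eq_abs]
      exact Complex.abs_im_le_norm _
  -- Fubini
  have hfub : ∫ σ in a..b, ∫ y in c..d, f σ y = ∫ y in c..d, ∫ σ in a..b, f σ y := by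
    simp only [intervalIntegral.integral_of_le hab.le, intervalIntegral.integral_of_le hcd.le]
    exact integral_integral_swap hfI
  have hinner : IntervalIntegrable (fun y => ∫ σ in a..b, f σ y) volume c d := by
    rw [intervalIntegrable_iff_integrableOn_Ioc_of_le hcd.le]
    simp only [intervalIntegral.integral_of_le hab.le]
    exact hfI.integral_prod_right
  have hfe : (fun y => ∫ σ in a..b, f σ y) =
      fun y => κ0 y * ∫ σ in a..b, (deriv F ⟨σ, y⟩ / F ⟨σ, y⟩).im := by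
    funext y
    rw [hf]
    simp only
    rw [intervalIntegral.integral_mul_const, mul_comm]
  have haI : IntervalIntegrable (fun y => κ0 y * ∫ σ in a..b, (deriv F ⟨σ, y⟩ / F ⟨σ, y⟩).im)
      volume c d := by
    rw [← hfe]
    exact hinner
  refine ⟨haI, ?_⟩
  have hA : ∫ y in c..d, ∫ σ in a..b, f σ y =
      ∫ y in c..d, κ0 y * ∫ σ in a..b, (deriv F ⟨σ, y⟩ / F ⟨σ, y⟩).im := by
    rw [hfe]
  have hB : ∀ᵐ σ ∂(volume : Measure ℝ), σ ∈ Ioc a b → ∫ y in c..d, f σ y =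
      (∫ y in c..d, deriv F ⟨b, y⟩ / F ⟨b, y⟩ * κ (((b - σ : ℝ) : ℂ) + (y - t : ℝ) * I)).im -
      ((∫ x in σ..b, deriv F ⟨x, c⟩ / F ⟨x, c⟩ * κ (((x - σ : ℝ) : ℂ) + (c - t : ℝ) * I)) -
      (∫ x in σ..b, deriv F ⟨x, d⟩ / F ⟨x, d⟩ * κ (((x - σ : ℝ) : ℂ) + (d - t : ℝ) * I))).re -
      2 * Real.pi * ∑ s ∈ Z, (H370.mult F s : ℝ) *
        (if σ < s.re then (κ (s - (σ + t * I))).im else 0) := by
    filter_upwards [(Finset.countable_toSet (Z0.image re)).ae_notMem volume,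
      Measure.ae_ne volume b] with σ hσ hσb hσI
    have h3 : ∀ y ∈ Icc c d, F ⟨σ, y⟩ ≠ 0 := by
      intro y hy h0
      apply hσ
      rw [Finset.mem_coe, Finset.mem_image]
      exact ⟨⟨σ, y⟩, (hz _ ⟨Ioc_subset_Icc_self hσI, hy⟩).1 h0, rfl⟩
    exact vertI hcd hF hκ hκ0 h1 h2 hZ hσI.1 (lt_of_le_of_ne hσI.2 hσb) h3
  have hcb : ContinuousOn (fun y : ℝ => deriv F ⟨b, y⟩ / F ⟨b, y⟩) (Icc c d) := by
    have hm : MapsTo (fun y : ℝ => (⟨b, y⟩ : ℂ)) (Icc c d) K :=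
      fun y hy => ⟨⟨hab.le, le_rfl⟩, hy⟩
    apply ContinuousOn.div
    · exact (hF.deriv.continuousOn).comp (cont_mk_right b).continuousOn hm
    · exact (hF.continuousOn).comp (cont_mk_right b).continuousOn hm
    · exact h2
  have hcc : ∀ e : ℝ, e ∈ Icc c d → (∀ x ∈ Icc a b, F ⟨x, e⟩ ≠ 0) →
      ContinuousOn (fun x : ℝ => deriv F ⟨x, e⟩ / F ⟨x, e⟩) (Icc a b) := by
    intro e he h3
    have hm : MapsTo (fun x : ℝ => (⟨x, e⟩ : ℂ)) (Icc a b) K := fun x hx => ⟨hx, he⟩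
    apply ContinuousOn.div
    · exact (hF.deriv.continuousOn).comp (cont_mk_left e).continuousOn hm
    · exact (hF.continuousOn).comp (cont_mk_left e).continuousOn hm
    · exact h3
  have hI1 : IntervalIntegrable (fun σ : ℝ => (∫ y in c..d, deriv F ⟨b, y⟩ / F ⟨b, y⟩ *
      κ (((b - σ : ℝ) : ℂ) + (y - t : ℝ) * I)).im) volume a b :=
    (Complex.continuous_im.comp
      (cont1 (W := fun s => deriv F s / F s) hcd.le hκ.continuous hcb)).intervalIntegrable _ _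
  have hI2 : IntervalIntegrable (fun σ : ℝ =>
      ((∫ x in σ..b, deriv F ⟨x, c⟩ / F ⟨x, c⟩ * κ (((x - σ : ℝ) : ℂ) + (c - t : ℝ) * I)) -
      (∫ x in σ..b, deriv F ⟨x, d⟩ / F ⟨x, d⟩ * κ (((x - σ : ℝ) : ℂ) + (d - t : ℝ) * I))).re)
      volume a b := by
    apply ContinuousOn.intervalIntegrable
    rw [uIcc_of_le hab.le]
    apply Complex.continuous_re.comp_continuousOn
    apply ContinuousOn.sub
    · exact cont2 (W := fun s => deriv F s / F s) hab.le hκ.continuous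
        (hcc c ⟨le_rfl, hcd.le⟩ fun x hx => (h1 x hx).1)
    · exact cont2 (W := fun s => deriv F s / F s) hab.le hκ.continuous
        (hcc d ⟨hcd.le, le_rfl⟩ fun x hx => (h1 x hx).2)
  have hcs : ∀ s : ℂ, Continuous (fun σ : ℝ => (κ (s - (σ + t * I))).im) := by
    intro s
    have := hκ.continuous
    fun_prop
  have hstep : ∀ s : ℂ, a < s.re → s.re < b →
      IntervalIntegrable (fun σ : ℝ => if σ < s.re then (κ (s - (σ + t * I))).im else 0)
        volume a b ∧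
      (∫ σ in a..b, if σ < s.re then (κ (s - (σ + t * I))).im else 0) =
        ∫ σ in a..s.re, (κ (s - (σ + t * I))).im := by
    intro s hs1 hs2
    have e1 : IntervalIntegrable (fun σ : ℝ => if σ < s.re then (κ (s - (σ + t * I))).im else 0)
        volume a s.re := by
      refine ((hcs s).intervalIntegrable a s.re).congr_ae ?_
      rw [uIoc_of_le hs1.le]
      refine (ae_restrict_iff' measurableSet_Ioc).2 ?_
      filter_upwards [Measure.ae_ne volume s.re] with σ hσ hσI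
      rw [if_pos (lt_of_le_of_ne hσI.2 hσ)]
    have e2 : IntervalIntegrable (fun σ : ℝ => if σ < s.re then (κ (s - (σ + t * I))).im else 0)
        volume s.re b := by
      refine (IntervalIntegrable.zero (a := s.re) (b := b) (μ := volume) (E := ℝ)).congr_ae ?_
      rw [uIoc_of_le hs2.le]
      refine (ae_restrict_iff' measurableSet_Ioc).2 ?_
      filter_upwards with σ hσI
      rw [if_neg (not_lt.2 hσI.1.le)]
      rfl
    refine ⟨e1.trans e2, ?_⟩
    rw [← intervalIntegral.integral_add_adjacent_intervals e1 e2]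
    have e3 : (∫ σ in (s.re)..b, if σ < s.re then (κ (s - (σ + t * I))).im else 0) = 0 := by
      apply intervalIntegral.integral_zero_ae
      rw [uIoc_of_le hs2.le]
      filter_upwards with σ hσI
      rw [if_neg (not_lt.2 hσI.1.le)]
    rw [e3, add_zero]
    apply intervalIntegral.integral_congr_ae
    rw [uIoc_of_le hs1.le]
    filter_upwards [Measure.ae_ne volume s.re] with σ hσ hσI
    rw [if_pos (lt_of_le_of_ne hσI.2 hσ)]
  have hI3 : IntervalIntegrable (fun σ : ℝ => 2 * Real.pi * ∑ s ∈ Z, (H370.mult F s : ℝ) *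
        (if σ < s.re then (κ (s - (σ + t * I))).im else 0)) volume a b := by
    apply IntervalIntegrable.const_mul
    have e4 : (fun σ : ℝ => ∑ s ∈ Z, (H370.mult F s : ℝ) *
        (if σ < s.re then (κ (s - (σ + t * I))).im else 0)) =
        ∑ s ∈ Z, fun σ : ℝ => (H370.mult F s : ℝ) *
        (if σ < s.re then (κ (s - (σ + t * I))).im else 0) := by
      funext σ
      rw [Finset.sum_apply]
    rw [e4]
    apply IntervalIntegrable.sum
    intro s hs
    obtain ⟨q1, q2, -⟩ := (hZ s).1 hs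
    exact (hstep s q1 q2).1.const_mul _
  have hC : ∫ σ in a..b, ∫ y in c..d, f σ y =
      (∫ σ in a..b, (∫ y in c..d, deriv F ⟨b, y⟩ / F ⟨b, y⟩ *
        κ (((b - σ : ℝ) : ℂ) + (y - t : ℝ) * I)).im) -
      (∫ σ in a..b,
        ((∫ x in σ..b, deriv F ⟨x, c⟩ / F ⟨x, c⟩ * κ (((x - σ : ℝ) : ℂ) + (c - t : ℝ) * I)) -
        (∫ x in σ..b, deriv F ⟨x, d⟩ / F ⟨x, d⟩ * κ (((x - σ : ℝ) : ℂ) + (d - t : ℝ) * I))).re) -
      2 * Real.pi * ∑ s ∈ Z, (H370.mult F s : ℝ) * ∫ σ in a..s.re, (κ (s - (σ + t * I))).im := by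
    rw [intervalIntegral.integral_congr_ae (by rw [uIoc_of_le hab.le]; exact hB),
      intervalIntegral.integral_sub (hI1.sub hI2) hI3, intervalIntegral.integral_sub hI1 hI2,
      intervalIntegral.integral_const_mul, intervalIntegral.integral_finsetSum]
    · congr 2
      apply Finset.sum_congr rfl
      intro s hs
      obtain ⟨q1, q2, -⟩ := (hZ s).1 hs
      rw [intervalIntegral.integral_const_mul, (hstep s q1 q2).2]
    · intro s hs
      obtain ⟨q1, q2, -⟩ := (hZ s).1 hs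
      exact (hstep s q1 q2).1.const_mul _
  have hD := hfub
  rw [hA, hC] at hD
  linarith

end Pool.Agent.Run7.h416.AE
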